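import Pool.Agent.Helper11.PP.Defs

set_option autoImplicit false

/-!
# Module F4 (twins) for MP_505789_lc
-/

namespace Pool.Agent.Helper18.PP

open Pool.Agent.Helper11.PP

theorem sub_apply (s : Nm) (w v : List ℕ) : sub s w v = s (w ++ v) := by
  simp [sub]

theorem iota_apply (J : Nm → Nm → ℕ) (i : ℕ) (s x : Nm) (w : List ℕ) [Decidable (s w ≠ 0 ∧ ∀ a ∈ w, a < i)] :
    iota J i s x w = if s w ≠ 0 ∧ (∀ a ∈ w, a < i) then J (sub s w) (sub x w) else 0 := by
  unfold iota
  rw [Finsupp.onFinset_apply]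
  congr

theorem finite_words (i h : ℕ) : {w : List ℕ | (∀ a ∈ w, a < i) ∧ w.length ≤ h}.Finite := by
  refine ((List.finite_length_le (Fin i) h).image (List.map Fin.val)).subset ?_
  rintro w ⟨h1, h2⟩
  refine ⟨w.pmap (fun a ha => (⟨a, ha⟩ : Fin i)) h1, by simpa using h2, ?_⟩
  simp [List.map_pmap]

theorem finite_finsupp (S : Set (List ℕ)) (hS : S.Finite) (M : ℕ) :
    {f : Nm | (∀ w, f w ≠ 0 → w ∈ S) ∧ ∀ w, f w ≤ M}.Finite := by
  classical
  refine (Finset.finite_toSet (Finset.finsupp hS.toFinset (fun _ => Finset.range (M + 1)))).subset ?_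
  rintro f ⟨h1, h2⟩
  rw [Finset.mem_coe, Finset.mem_finsupp_iff]
  refine ⟨fun w hw => ?_, fun w _ => ?_⟩
  · rw [Set.Finite.mem_toFinset]
    exact h1 w (Finsupp.mem_support_iff.1 hw)
  · rw [Finset.mem_range]
    exact Nat.lt_succ_of_le (h2 w)

theorem finite_names (i h : ℕ) : {t : Nm | IsName i h t}.Finite := by
  refine (finite_finsupp _ (finite_words i h) (2 ^ i)).subset ?_
  rintro t ⟨_, _, h3⟩
  refine ⟨fun w hw => ⟨(h3 w hw).1, (h3 w hw).2.1⟩, fun w => ?_⟩
  by_cases hw : t w = 0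
  · rw [hw]; exact Nat.zero_le _
  · exact (h3 w hw).2.2

theorem finite_points (t : Nm) (N : ℕ) : {x : Nm | IsPoint t N x}.Finite := by
  refine (finite_finsupp (t.support : Set (List ℕ)) (Finset.finite_toSet _) N).subset ?_
  rintro x ⟨h1, h2, _⟩
  refine ⟨fun w hw => ?_, fun w => ?_⟩
  · rw [Finset.mem_coe, Finsupp.mem_support_iff]
    intro h0
    exact hw (h1 w h0)
  · by_cases hw : t w = 0
    · rw [h1 w hw]; exact Nat.zero_le _
    · exact (h2 w hw).le

/-- Pigeonhole: more indices than patterns. -/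
theorem exists_twins {P : Type*} [Finite P] (F : ℕ → P) :
    ∃ a b, a < Nat.card P + 1 ∧ b < Nat.card P + 1 ∧ a ≠ b ∧ F a = F b := by
  have : ∃ a b : Fin (Nat.card P + 1), a ≠ b ∧ F a = F b := by
    by_contra hcon
    push Not at hcon
    have hinj : Function.Injective (fun a : Fin (Nat.card P + 1) => F a) := by
      intro a b hab
      by_contra hne
      exact hcon a b hne hab
    have := Nat.card_le_card_of_injective _ hinj
    simp at this
  obtain ⟨a, b, hab, hF⟩ := this
  exact ⟨a, b, a.2, b.2, fun h => hab (Fin.ext h), hF⟩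

/-- The reindexing: the own coordinate of `s` goes to the place `a` of its block. -/
noncomputable def gg (s : Nm) (K a : ℕ) (r : Nm) (l : ℕ) : ℕ := by
  classical
  exact if r = s then l * K + a else l * K

theorem stK (hre : ST_reindex) : ST_K := by
  classical
  intro h i N' s hs
  -- the finite type of patterns
  let T : Type := {t : Nm // IsName i h t}
  let Pt : T → Type := fun t => {y : Nm // IsPoint t.1 N' y}
  have hT : Finite T := (finite_names i h).to_subtype
  have hPt : ∀ t : T, Finite (Pt t) := fun t => (finite_points t.1 N').to_subtype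
  have hX : Finite {x : Nm // IsPoint s N' x} := (finite_points s N').to_subtype
  let Pat : Type := (Σ t : T, Set (Pt t)) × {x : Nm // IsPoint s N' x} → Prop
  have hPat : Finite Pat := inferInstance
  let K : ℕ := Nat.card Pat + 1
  have hKdef : K = Nat.card Pat + 1 := rfl
  refine ⟨N' * K, ?_⟩
  intro p hp hpi hpN ψ
  -- the patterns
  let pt : Nm → Nm → Nm := fun t y => iota (fun _ x' => x' [] * K) i t y
  let XX : ℕ → Nm → Nm := fun a x => iota (fun s' x' => gg s K a s' (x' [])) i s x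
  let BB : ∀ t : T, Set (Pt t) → Finset ℕ := fun t Y =>
    (Set.toFinite ((fun y : Pt t => p.c (t.1, pt t.1 y.1)) '' Y)).toFinset
  let F : ℕ → Pat := fun a z => p.c (s, XX a z.2.1) ∈ ψ (BB z.1.1 z.1.2)
  obtain ⟨a, b, haK, hbK, hab, hF⟩ := exists_twins F
  rw [← hKdef] at haK hbK
  have hlt : ∀ a, a < K → ∀ r l, l < N' → gg s K a r l < p.N := by
    intro a haK r l hl
    have h1 : (l + 1) * K ≤ N' * K := Nat.mul_le_mul_right K hl
    rw [Nat.add_mul, Nat.one_mul] at h1
    unfold gg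
    split_ifs <;> omega
  have hmono : ∀ a, a < K → ∀ r t l l', l < l' → l' < N' → gg s K a r l < gg s K a t l' := by
    intro a haK r t l l' hl _
    have h1 : (l + 1) * K ≤ l' * K := Nat.mul_le_mul_right K hl
    rw [Nat.add_mul, Nat.one_mul] at h1
    unfold gg
    split_ifs <;> omega
  obtain ⟨q, hqv, hqr, hqi, hqN, hq⟩ := hre h p hp N' (gg s K a) (hlt a haK) (hmono a haK)
  obtain ⟨q2, _, _, _, _, hq2⟩ := hre h p hp N' (gg s K b) (hlt b hbK) (hmono b hbK)
  refine ⟨q, hqv, hqr, hqi.trans hpi, hqN, ?_⟩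
  rw [hpi] at hq hq2
  have hsi : IsName q.i h s := by rw [hqi, hpi]; exact hs
  intro t ht hts B hB
  rw [hqi, hpi] at ht
  by_cases hdis : Disjoint (ψ B) (Aset q s)
  · exact Or.inl hdis
  right
  intro hsub
  obtain ⟨v, hv1, hv2⟩ := Set.not_disjoint_iff.1 hdis
  obtain ⟨x, hx, rfl⟩ := hv2
  rw [hqN] at hx
  -- the points of `t` do not depend on `a`
  have hpt : ∀ y, IsPoint t N' y → q.c (t, y) = p.c (t, pt t y) := by
    intro y hy
    rw [(hq t y ht hy).2]
    congr 2
    ext w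
    rw [iota_apply, iota_apply]
    by_cases hw : t w ≠ 0 ∧ ∀ a ∈ w, a < i
    · rw [if_pos hw, if_pos hw]
      unfold gg
      rw [if_neg (hts w hw.1)]
    · rw [if_neg hw, if_neg hw]
  -- `B` is one of the sets `BB`
  have hBB : BB ⟨t, ht⟩ {y | q.c (t, y.1) ∈ B} = B := by
    ext n
    simp only [BB, Set.Finite.mem_toFinset, Set.mem_image, Set.mem_ofPred_eq]
    constructor
    · rintro ⟨y, hy, rfl⟩
      rw [← hpt y.1 y.2]
      exact hy
    · intro hn
      obtain ⟨y, hy, hyn⟩ := hB (Finset.mem_coe.2 hn)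
      rw [hqN] at hy
      refine ⟨⟨y, hy⟩, ?_, ?_⟩
      · change q.c (t, y) ∈ B
        rw [← hyn]; exact hn
      · change p.c (t, pt t y) = n
        rw [← hpt y hy, ← hyn]
  have hval : q.c (s, x) = p.c (s, XX a x) := (hq s x hs hx).2
  have hFF := congrFun hF (⟨⟨t, ht⟩, {y | q.c (t, y.1) ∈ B}⟩, ⟨x, hx⟩)
  simp only [F] at hFF
  rw [hBB, ← hval] at hFF
  have hv3 : p.c (s, XX b x) ∈ ψ B := hFF ▸ hv1
  obtain ⟨x', hx', hxx⟩ := hsub hv3
  rw [hqN] at hx'
  have hval' : q.c (s, x') = p.c (s, XX a x') := (hq s x' hs hx').2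
  rw [hval'] at hxx
  have hpts : IsPoint s p.N (XX b x) := (hq2 s x hs hx).1
  have hpts' : IsPoint s p.N (XX a x') := (hq s x' hs hx').1
  have heq : XX b x = XX a x' := hp s (by rw [hpi]; exact hs) _ _ hpts hpts' hxx
  have h0 := DFunLike.congr_fun heq []
  simp only [XX] at h0
  rw [iota_apply, iota_apply, if_pos ⟨hs.1, by simp⟩, if_pos ⟨hs.1, by simp⟩] at h0
  have hss : sub s [] = s := by ext w; rw [sub_apply]; rfl
  have hx0 : ∀ x : Nm, sub x [] [] = x [] := by intro x; rw [sub_apply]; rfl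
  rw [hss, hx0, hx0] at h0
  unfold gg at h0
  rw [if_pos rfl, if_pos rfl] at h0
  -- `x [] * K + b = x' [] * K + a`
  have h1 : (x [] * K + b) % K = (x' [] * K + a) % K := by rw [h0]
  rw [Nat.mul_comm, Nat.mul_add_mod, Nat.mul_comm, Nat.mul_add_mod, Nat.mod_eq_of_lt hbK,
    Nat.mod_eq_of_lt haK] at h1
  exact hab h1.symm

end Pool.Agent.Helper18.PP
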